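import Pool.Agent.Helper44.GH.Stmts

/-!
MP_d210aa_gt: ST_MPL.
-/

set_option autoImplicit false

open Set Filter Topology

namespace Pool.Agent.Helper24.GH

open Pool.Agent.Helper44.GH

/-- In a connected set containing `a` and `b` there is a point at each smaller distance from `a`. -/
theorem mid_dist {E : Type} [NormedAddCommGroup E] (K : Set E) (hK : IsConnected K) (a b : E)
    (ha : a ∈ K) (hb : b ∈ K) (t : ℝ) (t0 : 0 ≤ t) (t1 : t ≤ ‖b - a‖) :
    ∃ x ∈ K, ‖x - a‖ = t := by
  have hc : ContinuousOn (fun x : E => ‖x - a‖) K := by fun_prop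
  have h := hK.isPreconnected.intermediate_value ha hb hc
  have h2 : t ∈ Set.Icc ‖a - a‖ ‖b - a‖ := by
    refine ⟨?_, t1⟩
    rw [sub_self, norm_zero]; exact t0
  obtain ⟨x, hx, h3⟩ := h h2
  exact ⟨x, hx, h3⟩

theorem st_MPL (h1 : ST_MP1) (h2 : ST_MP2) : ST_MPL := by
  intro E _ _ G hG hpos hcomp hcr w hw v
  by_contra hcon
  push Not at hcon
  obtain ⟨r, r0, hr⟩ := hw
  set S : Set ℝ := {c : ℝ | 0 < c ∧ ∃ K : Set E, IsCompact K ∧ IsConnected K ∧ w ∈ K ∧ v ∈ K ∧
    ∀ x ∈ K, c ≤ G x} with hS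
  have hne : S.Nonempty := by
    have hc1 : IsCompact (segment ℝ w v) := by
      rw [segment_eq_image]
      exact isCompact_Icc.image (by fun_prop)
    have hc2 : IsConnected (segment ℝ w v) :=
      ⟨⟨w, left_mem_segment ℝ w v⟩, (convex_segment w v).isPreconnected⟩
    obtain ⟨y, hy, hmin⟩ := hc1.exists_isMinOn ⟨w, left_mem_segment ℝ w v⟩ hG.continuousOn
    exact ⟨G y, hpos y, segment ℝ w v, hc1, hc2, left_mem_segment ℝ w v,
      right_mem_segment ℝ w v, fun x hx => hmin hx⟩
  have hbd : BddAbove S := by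
    refine ⟨G w, ?_⟩
    rintro c ⟨_, K, _, _, hwK, _, hK⟩
    exact hK w hwK
  set cs := sSup S with hcs
  have cs0 : 0 < cs := by
    obtain ⟨c, hc⟩ := hne
    exact lt_of_lt_of_le hc.1 (le_csSup hbd hc)
  set ck : ℕ → ℝ := fun k => cs - cs / (k + 2) with hck
  have ck0 : ∀ k, 0 < ck k := by
    intro k
    have : cs / ((k : ℝ) + 2) < cs := by
      apply div_lt_self cs0
      have : (0 : ℝ) ≤ k := Nat.cast_nonneg k
      linarith
    simp only [hck]; linarith
  have ck1 : ∀ k, ck k < cs := by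
    intro k
    have : 0 < cs / ((k : ℝ) + 2) := by positivity
    simp only [hck]; linarith
  have ckm : ∀ k l, k ≤ l → ck k ≤ ck l := by
    intro k l hkl
    simp only [hck]
    have h3 : cs / ((l : ℝ) + 2) ≤ cs / ((k : ℝ) + 2) := by
      apply div_le_div_of_nonneg_left cs0.le (by positivity)
      have : (k : ℝ) ≤ l := by exact_mod_cast hkl
      linarith
    linarith
  set Fk : ℕ → Set E := fun k => {x | ck k ≤ G x} with hFk
  set Kk : ℕ → Set E := fun k => connectedComponentIn (Fk k) w with hKk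
  have hex : ∀ k, ∃ K : Set E, IsConnected K ∧ w ∈ K ∧ v ∈ K ∧ K ⊆ Fk k := by
    intro k
    obtain ⟨s, hs, h3⟩ := exists_lt_of_lt_csSup hne (ck1 k)
    obtain ⟨_, K, _, hKc, hwK, hvK, hK⟩ := hs
    exact ⟨K, hKc, hwK, hvK, fun x hx => le_trans h3.le (hK x hx)⟩
  have hwF : ∀ k, w ∈ Fk k := by
    intro k
    obtain ⟨K, _, hwK, _, hK⟩ := hex k
    exact hK hwK
  have hKconn : ∀ k, IsConnected (Kk k) := by
    intro k
    exact isConnected_connectedComponentIn_iff.2 (hwF k)
  have hvK : ∀ k, v ∈ Kk k := by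
    intro k
    obtain ⟨K, hKc, hwK, hvK, hK⟩ := hex k
    exact hKc.isPreconnected.subset_connectedComponentIn hwK hK hvK
  have hwK : ∀ k, w ∈ Kk k := fun k => mem_connectedComponentIn (hwF k)
  have hFc : ∀ k, IsCompact (Fk k) := fun k => hcomp (ck k) (ck0 k)
  have hKcl : ∀ k, IsClosed (Kk k) := by
    intro k
    have hcl : IsClosed (Fk k) := (hFc k).isClosed
    have h3 : closure (Kk k) ⊆ Fk k :=
      closure_minimal (connectedComponentIn_subset _ _) hcl
    have h4 : closure (Kk k) ⊆ Kk k :=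
      (hKconn k).isPreconnected.closure.subset_connectedComponentIn
        (subset_closure (hwK k)) h3
    exact isClosed_of_closure_subset h4
  have hKcomp : ∀ k, IsCompact (Kk k) := fun k =>
    (hFc k).of_isClosed_subset (hKcl k) (connectedComponentIn_subset _ _)
  have hanti : Antitone Kk := by
    intro k l hkl
    apply connectedComponentIn_mono
    intro x hx
    exact le_trans (ckm k l hkl) hx
  obtain ⟨hKc, hKn⟩ := h1 E Kk hKcomp hKconn hanti
  set K := ⋂ k, Kk k with hK
  have hwI : w ∈ K := Set.mem_iInter.2 hwK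
  have hvI : v ∈ K := Set.mem_iInter.2 hvK
  have hKG : ∀ x ∈ K, cs ≤ G x := by
    intro x hx
    have h3 : ∀ k : ℕ, ck k ≤ G x := by
      intro k
      have h9 : x ∈ Fk k := connectedComponentIn_subset _ _ (Set.mem_iInter.1 hx k)
      exact h9
    have h4 : Tendsto ck atTop (𝓝 cs) := by
      have h5 : Tendsto (fun k : ℕ => cs / ((k : ℝ) + 2)) atTop (𝓝 0) := by
        apply Tendsto.div_atTop tendsto_const_nhds
        exact tendsto_atTop_add_const_right _ _ tendsto_natCast_atTop_atTop
      have h6 := (tendsto_const_nhds (x := cs)).sub h5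
      simpa using h6
    exact le_of_tendsto' h4 h3
  have hvr : r ≤ ‖v - w‖ := by
    by_contra h3
    push Not at h3
    have hvw : v ≠ w := by
      rintro rfl
      exact lt_irrefl _ hcon
    have := hr v hvw h3
    linarith
  obtain ⟨x, hx, hxr⟩ := mid_dist K hKn w v hwI hvI (r / 2) (by linarith) (by linarith)
  have hxw : G x < G w := by
    apply hr x
    · rintro rfl
      rw [sub_self, norm_zero] at hxr
      linarith
    · rw [hxr]; linarith
  have hcw : cs < G w := lt_of_le_of_lt (hKG x hx) hxw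
  have hcrit : ∀ y ∈ K, G y = cs → SLP G y := by
    intro y hy hyc
    rcases hcr y with h3 | h3
    · exfalso
      obtain ⟨s, s0, hs⟩ := h3
      have hwy : w ≠ y := by
        rintro rfl
        linarith
      have hd : 0 < ‖w - y‖ := norm_pos_iff.2 (sub_ne_zero.2 hwy)
      obtain ⟨z, hz, hzr⟩ := mid_dist K hKn y w hy hwI (min (s / 2) ‖w - y‖)
        (le_min (by linarith) hd.le) (min_le_right _ _)
      have hm : 0 < min (s / 2) ‖w - y‖ := lt_min (by linarith) hd
      have hzy : z ≠ y := by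
        rintro rfl
        rw [sub_self, norm_zero] at hzr
        linarith
      have h4 := hs z hzy (by
        rw [hzr]
        exact lt_of_le_of_lt (min_le_left _ _) (by linarith))
      have h5 := hKG z hz
      linarith
    · exact h3
  obtain ⟨K', c', hc1, hc2, hw', hv', hcc, hK'⟩ := h2 E G hG K cs w v hKc hKn hKG hcrit hwI hvI
    hcw (lt_trans hcw hcon)
  have h6 : c' ∈ S := ⟨lt_trans cs0 hcc, K', hc1, hc2, hw', hv', hK'⟩
  have h7 := le_csSup hbd h6
  linarith

end Pool.Agent.Helper24.GH
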